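import Pool.Agent.Run7.h250.LR.Sse
import Pool.Agent.Run7.h881.SE.Gr
import Pool.Agent.Run7.h881.SE.Abs
import Pool.Agent.Run7.h881.SE.Num2

/-!
# Local reductions from gap 3-SAT to small-set expansion must be large

The definitions used in the statement are those below, `Reads`, `SatOn` in
`Pool/Agent/TH700/UG/Defs.lean`, and `Clause`, `Satisfies`, `falsified` in
`Pool/Agent/W888/GX/Mix.lean`.

Proof: for random formulas there is a pseudo-expectation of linear degree which satisfies all
clauses (starting files). Composed with the honest sets of a local reduction it is a solution of the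
level `n / D`, up to a constant, of the Sherali-Adams linear program for small-set expansion. The
rounding theorems for this program (`Run7.h881.SE`, helper881) give a set of small expansion unless
`s` is large.
-/

set_option autoImplicit false

namespace Pool.Agent.Results.MP_8d8c46_lc.LocalReductions

open Finset Pool.Agent.W888.GX Pool.Agent.TH700.UG

/-- The number of edges of `G` with exactly one endpoint in `S`. -/
def boundary {V : Type} [Fintype V] [DecidableEq V] (G : SimpleGraph V) [DecidableRel G.Adj]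
    (S : Finset V) : ℕ :=
  (univ.filter fun e : V × V => e.1 ∈ S ∧ e.2 ∉ S ∧ G.Adj e.1 e.2).card

/-- The expansion of `S` in the `d`-regular graph `G`. -/
noncomputable def expansion {V : Type} [Fintype V] [DecidableEq V] (G : SimpleGraph V)
    [DecidableRel G.Adj] (d : ℕ) (S : Finset V) : ℝ := (boundary G S : ℝ) / (d * S.card)

/-- The formula `F` is represented in the `d`-regular graph `G` with locality `D`, sets of `s`
vertices and expansion `η`: every assignment `x` of the variables has an honest set `enc x` of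
vertices, where the membership of each vertex depends on at most `D` of the variables, and

`|enc x| = s + ∑ q, h q x`, `boundary (enc x) = η d s - ∑ p, g p x`,

where each `h q x` depends on a set `R q` of at most `D` variables and is zero if `x` satisfies the
clauses of `F` inside `R q`, and each `g p x` depends on a set `T p` of at most `D` variables and is
nonnegative if `x` satisfies the clauses of `F` inside `T p`. So if `x` satisfies `F` then the honest
set has exactly `s` vertices and expansion at most `η`, and this can be checked locally. -/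
def Represents {n k : ℕ} {I V : Type} [Fintype V] [DecidableEq V] (F : I → Clause k n) (D : ℕ)
    (η : ℝ) (G : SimpleGraph V) [DecidableRel G.Adj] (d s : ℕ) : Prop :=
  ∃ (enc : (Fin n → ZMod 2) → Finset V)
    (P : Type) (_ : Fintype P) (T : P → Finset (Fin n)) (g : P → (Fin n → ZMod 2) → ℝ)
    (Q : Type) (_ : Fintype Q) (R : Q → Finset (Fin n)) (h : Q → (Fin n → ZMod 2) → ℝ),
    (∀ v, ∃ S : Finset (Fin n), S.card ≤ D ∧ Reads (fun x => v ∈ enc x) S) ∧
    (∀ p, (T p).card ≤ D ∧ Reads (g p) (T p) ∧ ∀ x, SatOn F (T p) x → 0 ≤ g p x) ∧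
    (∀ q, (R q).card ≤ D ∧ Reads (h q) (R q) ∧ ∀ x, SatOn F (R q) x → h q x = 0) ∧
    (∀ x, ((enc x).card : ℝ) = s + ∑ q, h q x) ∧
    ∀ x, (boundary G (enc x) : ℝ) = η * (d * s) - ∑ p, g p x

/-- the level is large enough -/
theorem level (c0 : ℝ) (n D0 D : ℕ) (hD0 : c0 * n ≤ D0) (hD : 1 ≤ D) (X : ℝ)
    (hX : 1 / 4 ≤ X) (hXn : X ≤ c0 / 2000000000 * n / D) :
    1000000000 * X ≤ ((D0 / D : ℕ) : ℝ) ∧ D ≤ D0 := by
  have hDr : (0 : ℝ) < D := by exact_mod_cast hD
  have h1 : 2000000000 * X ≤ c0 * n / D := by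
    have : c0 / 2000000000 * n / D = (c0 * n / D) / 2000000000 := by ring
    rw [this, le_div_iff₀ (by norm_num)] at hXn
    linarith
  have h2 : c0 * n / D < ((D0 / D : ℕ) : ℝ) + 1 := by
    rw [div_lt_iff₀ hDr]
    refine lt_of_le_of_lt hD0 ?_
    have h3 : D0 < (D0 / D + 1) * D := by
      have h4 := Nat.div_add_mod D0 D
      have h5 := Nat.mod_lt D0 (by omega : 0 < D)
      calc D0 = D * (D0 / D) + D0 % D := h4.symm
        _ < D * (D0 / D) + D := by omega
        _ = (D0 / D + 1) * D := by ring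
    exact_mod_cast h3
  have h3 : 1000000000 * X ≤ ((D0 / D : ℕ) : ℝ) := by linarith
  refine ⟨h3, ?_⟩
  have h4 : (0 : ℝ) < ((D0 / D : ℕ) : ℝ) := by linarith
  have h5 : 0 < D0 / D := by exact_mod_cast h4
  by_contra h
  rw [Nat.div_eq_of_lt (by omega)] at h5
  exact lt_irrefl _ h5

theorem log_sq (s : ℕ) (hs : 1 ≤ s) : 1 / 4 ≤ Real.log (2 * s) ^ 2 := by
  have hl2 := Real.log_two_gt_d9
  have h1 : Real.log 2 ≤ Real.log (2 * s) := by
    have : (1 : ℝ) ≤ s := by exact_mod_cast hs
    exact Real.log_le_log (by norm_num) (by linarith)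
  nlinarith

/-- There is an absolute constant `C` such that for every `ρ > 0` there are `M` and `c > 0` such that
for all large `n` there is a formula `F` with at least `n` and at most `M n` clauses, with three
literals each, over `n` variables, every assignment of which falsifies at least a fraction
`1 / 8 - ρ` of the clauses, and with the following property. Let `D ≥ 1` and let `G` be a
`d`-regular graph, `d ≥ 1`, and `1 ≤ s ≤ |V|`.

(1) If `0 < η ≤ 1 / C`, the graph represents `F` with locality `D`, sets of `s` vertices and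
expansion `η`, and all sets of `s` vertices have expansion at least `1 - η`, then
`log (2 s) ^ 2 * s ^ (C η) > c n / D`.

(2) If `0 < ε ≤ 1 / C`, `0 < q ≤ 1 / 2`, the graph represents `F` with locality `D`, sets of `s`
vertices and expansion `ε`, and all sets of `s` vertices have expansion greater than
`1 - ε q ^ 2 / 8`, then `log (2 s) ^ 2 * s ^ (C ε / log (1 / q)) > c n / D`.

(3) If `0 < φ ≤ 1`, `0 < 300 ε ≤ φ ^ 2`, the graph represents `F` with locality `D`, sets of `s`
vertices and expansion `ε`, and all sets with at least `ε s` and at most `2 s` vertices have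
expansion greater than `φ`, then
`(log (2 s) / φ ^ 2) ^ 2 * s ^ (300 ε / φ ^ 2) > c n / D`. -/
theorem result : ∃ C : ℝ, 0 < C ∧ ∀ ρ : ℝ, 0 < ρ →
    ∃ M : ℕ, 1 ≤ M ∧ ∃ c : ℝ, 0 < c ∧ ∃ n₀ : ℕ, ∀ n : ℕ, n₀ ≤ n →
      ∃ (I : Type) (_ : Fintype I) (F : I → Clause 3 n),
        n ≤ Fintype.card I ∧ Fintype.card I ≤ M * n ∧
        (∀ z, (1 / 8 - ρ) * (Fintype.card I : ℝ) ≤ (falsified F z : ℝ)) ∧
        ∀ (D : ℕ) (V : Type) [Fintype V] [DecidableEq V] (G : SimpleGraph V) [DecidableRel G.Adj]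
          (d s : ℕ), 1 ≤ D → 1 ≤ d → G.IsRegularOfDegree d → 1 ≤ s → s ≤ Fintype.card V →
          (∀ η : ℝ, 0 < η → η ≤ 1 / C → Represents F D η G d s →
            (∀ S : Finset V, S.card = s → 1 - η ≤ expansion G d S) →
            c * n / D < Real.log (2 * s) ^ 2 * (s : ℝ) ^ (C * η)) ∧
          (∀ ε q : ℝ, 0 < ε → ε ≤ 1 / C → 0 < q → q ≤ 1 / 2 → Represents F D ε G d s →
            (∀ S : Finset V, S.card = s → 1 - ε * q ^ 2 / 8 < expansion G d S) →
            c * n / D < Real.log (2 * s) ^ 2 * (s : ℝ) ^ (C * ε / Real.log (1 / q))) ∧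
          (∀ ε φ : ℝ, 0 < ε → 0 < φ → φ ≤ 1 → 300 * ε ≤ φ ^ 2 → Represents F D ε G d s →
            (∀ S : Finset V, ε * s ≤ S.card → (S.card : ℝ) ≤ 2 * s → φ < expansion G d S) →
            c * n / D < (Real.log (2 * s) / φ ^ 2) ^ 2 * (s : ℝ) ^ (300 * ε / φ ^ 2)) := by
  refine ⟨1000000000, by norm_num, fun ρ hρ => ?_⟩
  obtain ⟨M, hM, c0, hc0, n0, hn0⟩ := Pool.Agent.TH843.LR.exists_formula_card ρ hρ
  refine ⟨M, hM, c0 / 2000000000, by positivity, n0, fun n hn => ?_⟩
  obtain ⟨I, hI, F, D0, L, hcard0, hcard, hfar, hD0, hL, hF⟩ := hn0 n hn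
  refine ⟨I, hI, F, hcard0, hcard, hfar, ?_⟩
  intro D V _ _ G _ d s hD hd hG hs1 hs
  have hs1' : (1 : ℝ) ≤ s := by exact_mod_cast hs1
  have hs0 : (0 : ℝ) < s := by linarith
  have hd0 : (0 : ℝ) < d := by exact_mod_cast hd
  have hl2 := Real.log_two_gt_d9
  have hlog := log_sq s hs1
  -- the solution of the program
  have hsol : ∀ η : ℝ, Represents F D η G d s → D ≤ D0 →
      ∃ L' : (Finset V → ℝ) →ₗ[ℝ] ℝ, Run7.h881.SE.IsSheraliAdams (D0 / D) L' ∧
        Run7.h881.SE.HasSize (D0 / D) s L' ∧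
        L' (fun S => (boundary G S : ℝ)) ≤ η * (d * s) := by
    rintro η ⟨enc, P, hP, T, g, Q, hQ, R, h, h1, h2, h3, h4, h5⟩ hDD
    have h6 := Pool.Agent.Run7.h250.LR.sse_solution hL F hF enc (Nat.div_mul_le_self D0 D) h1 R h s
      h3 h4
    exact ⟨_, h6.1, h6.2, Pool.Agent.Run7.h250.LR.sse_boundary hL F hF enc hDD _ T g _ h2 h5⟩
  refine ⟨?_, ?_, ?_⟩
  · intro η hη0 hη1 hR hno
    by_contra hcon
    rw [not_lt] at hcon
    have hpow : (1 : ℝ) ≤ (s : ℝ) ^ (1000000000 * η) := Real.one_le_rpow hs1' (by positivity)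
    obtain ⟨hk, hDD⟩ := level c0 n D0 D hD0 hD _ (by nlinarith) hcon
    obtain ⟨L', hL1, hL2, hL3⟩ := hsol η hR hDD
    have hq : Real.log (1 / (1 / 2 : ℝ)) = Real.log 2 := by norm_num
    obtain ⟨S, hS, hS2⟩ := Run7.h881.SE.main G d hd hG s hs1 hs (33 * η) (1 / 2) (by linarith)
      (by linarith) (by norm_num) le_rfl 20000000 le_rfl (D0 / D) (by
        refine le_trans (b := 1000000000 * Real.log (2 * s) ^ 2 * (s : ℝ) ^ (1000000000 * η)) ?_
          (by rw [mul_assoc]; exact hk)
        refine mul_le_mul ?_ ?_ (by positivity) (by positivity)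
        · exact mul_le_mul_of_nonneg_right (by norm_num) (sq_nonneg _)
        · refine Real.rpow_le_rpow_of_exponent_le hs1' ?_
          rw [hq, div_le_iff₀ (by linarith)]
          nlinarith) L' hL1 hL2 (by
        refine hL3.trans ?_
        refine mul_le_mul_of_nonneg_right (by linarith) (by positivity))
    have h7 := hno S hS
    have h8 : expansion G d S ≤ 1 - 33 * η * (1 / 2) ^ 2 / 8 := hS2
    nlinarith
  · intro ε q hε hε1 hq hq1 hR hno
    by_contra hcon
    rw [not_lt] at hcon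
    have hq' : 0 ≤ Real.log (1 / q) := Real.log_nonneg (by rw [le_div_iff₀ hq]; linarith)
    have hpow : (1 : ℝ) ≤ (s : ℝ) ^ (1000000000 * ε / Real.log (1 / q)) :=
      Real.one_le_rpow hs1' (by positivity)
    obtain ⟨hk, hDD⟩ := level c0 n D0 D hD0 hD _ (by nlinarith) hcon
    obtain ⟨L', hL1, hL2, hL3⟩ := hsol ε hR hDD
    obtain ⟨S, hS, hS2⟩ := Run7.h881.SE.main G d hd hG s hs1 hs ε q hε
      (hε1.trans (by norm_num)) hq hq1 1000000000 (by norm_num) (D0 / D) (by
        rw [mul_assoc]; exact hk) L' hL1 hL2 hL3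
    exact absurd (hno S hS) (not_lt.2 hS2)
  · intro ε φ hε hφ hφ1 hεφ hR hno
    by_contra hcon
    rw [not_lt] at hcon
    have hφ2 : 0 < φ ^ 2 := by positivity
    have hφ21 : φ ^ 2 ≤ 1 := pow_le_one₀ hφ.le hφ1
    obtain ⟨τ, hτd⟩ : ∃ τ : ℝ, τ = 300 * ε / φ ^ 2 := ⟨_, rfl⟩
    have hτ0 : 0 < τ := by rw [hτd]; positivity
    have hτ1 : τ ≤ 1 := by rw [hτd, div_le_one hφ2]; exact hεφ
    have hpow : (1 : ℝ) ≤ (s : ℝ) ^ (300 * ε / φ ^ 2) := Real.one_le_rpow hs1' (by positivity)
    have hL0 : 0 ≤ Real.log (2 * s) := Real.log_nonneg (by linarith)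
    have hmono : Real.log (2 * s) ≤ Real.log (2 * s) / φ ^ 2 := by
      rw [le_div_iff₀ hφ2]; nlinarith
    have hsq : Real.log (2 * s) ^ 2 ≤ (Real.log (2 * s) / φ ^ 2) ^ 2 := pow_le_pow_left₀ hL0 hmono 2
    obtain ⟨hk, hDD⟩ := level c0 n D0 D hD0 hD _ (by nlinarith) hcon
    obtain ⟨L', hL1, hL2, hL3⟩ := hsol ε hR hDD
    have h300 : 300 * ε ≤ τ := by
      rw [hτd, le_div_iff₀ hφ2]
      nlinarith
    have hφτ : φ ^ 2 = 300 * ε / τ := by
      rw [hτd]; field_simp
    have hkk : 200 * (τ * Real.log (2 * s) / ε) ^ 2 * (s : ℝ) ^ τ ≤ ((D0 / D : ℕ) : ℝ) := by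
      refine le_trans ?_ hk
      rw [← hτd, ← mul_assoc]
      refine mul_le_mul_of_nonneg_right ?_ (by positivity)
      have h9 : τ * Real.log (2 * s) / ε = 300 * (Real.log (2 * s) / φ ^ 2) := by
        rw [hτd]; field_simp
      rw [h9]
      nlinarith [sq_nonneg (Real.log (2 * s) / φ ^ 2)]
    obtain ⟨T, M', j, hT, hTs, hM', hMT, hj, hMj⟩ := Run7.h881.SE.choice2 s hs1 ε τ hτ0 hτ1 hε
      h300 (D0 / D) hkk φ hφ hφτ
    have he' : L' (Run7.h881.SE.bd (Run7.h881.SE.wk G d)) ≤ ε * s := by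
      have h5 : Run7.h881.SE.bd (Run7.h881.SE.wk G d) =
          (1 / (d : ℝ)) • fun S : Finset V => (boundary G S : ℝ) := by
        funext S
        rw [Run7.h881.SE.bd_bdr, Pi.smul_apply, smul_eq_mul, one_div, mul_comm, ← div_eq_mul_inv]
        rfl
      rw [h5, map_smul, smul_eq_mul, one_div, inv_mul_le_iff₀ hd0]
      linarith
    have hφε : 17 * Real.sqrt ε ≤ φ := by
      have h10 : 17 * Real.sqrt ε = Real.sqrt (289 * ε) := by
        rw [Real.sqrt_mul (by norm_num)]
        congr 1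
        rw [show (289 : ℝ) = 17 ^ 2 by norm_num, Real.sqrt_sq (by norm_num)]
      rw [h10, Real.sqrt_le_left hφ.le]
      linarith
    obtain ⟨S, hS1, hS2, hS3⟩ := Run7.h881.SE.dicho2 (Run7.h881.SE.wk G d)
      (Run7.h881.SE.wk_nonneg G d) (Run7.h881.SE.wk_symm G d) (Run7.h881.SE.wk_row G d hd hG) s hs1
      ε φ hε (by linarith) hφ hφ1 hφε T hT hTs M' hM' hMT j hj L' (Run7.h881.SE.sa_mono hMj hL1)
      (Run7.h881.SE.size_mono hMj hL2) he'
    have h11 := hno S hS1 hS2
    have hSc : (0 : ℝ) < S.card := lt_of_lt_of_le (by positivity) hS1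
    rw [Run7.h881.SE.ins_bdr G d hd hG] at hS3
    unfold expansion at h11
    rw [lt_div_iff₀ (mul_pos hd0 hSc)] at h11
    have h6 : (Run7.h881.SE.bdr G S : ℝ) / d ≤ φ * S.card := by
      have h13 := hS3
      linarith
    rw [div_le_iff₀ hd0] at h6
    have h12 : (boundary G S : ℝ) ≤ φ * S.card * d := h6
    have h14 : φ * S.card * d = φ * (d * S.card) := by ring
    exact absurd (h12.trans_eq h14) (not_le.2 h11)

end Pool.Agent.Results.MP_8d8c46_lc.LocalReductions
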