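import Pool.Agent.Run7.h881.SE.Gr

/-!
Small-set expansion and the Sherali-Adams linear programs alone (no positive semidefiniteness): the
level `C log² (2 s) s ^ (C η)`, which depends only on the size `s = δ n` of the sets and not on `n`
or `δ`, decides `SSE(η, δ)`.
-/

set_option autoImplicit false

namespace Pool.Agent.Results.MP_8d8c46_lc.SheraliAdamsLevel

open Finset

/-- The number of edges of `G` with exactly one endpoint in `S`. -/
def boundary {V : Type} [Fintype V] [DecidableEq V] (G : SimpleGraph V) [DecidableRel G.Adj]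
    (S : Finset V) : ℕ :=
  (univ.filter fun e : V × V => e.1 ∈ S ∧ e.2 ∉ S ∧ G.Adj e.1 e.2).card

/-- The expansion of `S` in the `d`-regular graph `G`. -/
noncomputable def expansion {V : Type} [Fintype V] [DecidableEq V] (G : SimpleGraph V)
    [DecidableRel G.Adj] (d : ℕ) (S : Finset V) : ℝ := (boundary G S : ℝ) / (d * S.card)

/-- The function `f` of a set `S` of vertices depends only on `S ∩ W`. -/
def DependsOn {V : Type} [DecidableEq V] (W : Finset V) (f : Finset V → ℝ) : Prop :=
  ∀ S S' : Finset V, S ∩ W = S' ∩ W → f S = f S'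

/-- The level `k` Sherali-Adams linear program for a set `S` of `s` vertices whose expected
boundary is at most `η d s` has a solution: a linear functional `L` on the functions of a set with
`L 1 = 1`, nonnegative on the nonnegative functions which depend on at most `k` vertices, which
satisfies the constraint `|S| = s` multiplied by each function of fewer than `k` vertices. (Only
the values of `L` on functions of at most `k` vertices matter: they are the local distributions
of the program. Nothing is required to be positive semidefinite.) -/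
def Feasible {V : Type} [Fintype V] [DecidableEq V] (G : SimpleGraph V) [DecidableRel G.Adj]
    (d s k : ℕ) (η : ℝ) : Prop :=
  ∃ L : (Finset V → ℝ) →ₗ[ℝ] ℝ,
    L (fun _ => 1) = 1 ∧
    (∀ W : Finset V, W.card ≤ k → ∀ f : Finset V → ℝ, DependsOn W f → (∀ S, 0 ≤ f S) → 0 ≤ L f) ∧
    (∀ W : Finset V, W.card < k → ∀ f : Finset V → ℝ, DependsOn W f →
      L (fun S => (S.card : ℝ) * f S) = s * L f) ∧
    L (fun S => (boundary G S : ℝ)) ≤ η * (d * s)

/-- There is an absolute constant `C` such that for every `d`-regular graph `G`, `d ≥ 1`, and every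
`1 ≤ s ≤ n`:
(1) if some set of `s` vertices has expansion at most `η` then the program of every level is
feasible;
(2) for `0 < η ≤ 1 / C`: if the program of a level `k ≥ C * log (2 s) ^ 2 * s ^ (C η)` is feasible
for `η`, then some set of exactly `s` vertices has expansion less than `1 - η`;
(3) for `0 < ε ≤ 1 / C` and `0 < q ≤ 1 / 2`: if the program of a level
`k ≥ C * log (2 s) ^ 2 * s ^ (C ε / log (1 / q))` is feasible for `ε`, then some set of exactly `s`
vertices has expansion at most `1 - ε q ^ 2 / 8`. -/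
theorem result : ∃ C : ℝ, 0 < C ∧
    ∀ (V : Type) [Fintype V] [DecidableEq V] (G : SimpleGraph V) [DecidableRel G.Adj] (d : ℕ),
      1 ≤ d → G.IsRegularOfDegree d → ∀ s : ℕ, 1 ≤ s → s ≤ Fintype.card V →
      (∀ η : ℝ, (∃ S : Finset V, S.card = s ∧ expansion G d S ≤ η) →
        ∀ k : ℕ, Feasible G d s k η) ∧
      (∀ η : ℝ, 0 < η → η ≤ 1 / C → ∀ k : ℕ,
        C * Real.log (2 * s) ^ 2 * (s : ℝ) ^ (C * η) ≤ k → Feasible G d s k η →
        ∃ S : Finset V, S.card = s ∧ expansion G d S < 1 - η) ∧
      (∀ ε q : ℝ, 0 < ε → ε ≤ 1 / C → 0 < q → q ≤ 1 / 2 → ∀ k : ℕ,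
        C * Real.log (2 * s) ^ 2 * (s : ℝ) ^ (C * ε / Real.log (1 / q)) ≤ k →
        Feasible G d s k ε →
        ∃ S : Finset V, S.card = s ∧ expansion G d S ≤ 1 - ε * q ^ 2 / 8) := by
  classical
  refine ⟨1000000000, by norm_num, ?_⟩
  intro V _ _ G _ d hd hG s hs1 hs
  have hs1' : (1 : ℝ) ≤ s := by exact_mod_cast hs1
  have hs0 : (0 : ℝ) < s := by linarith
  have hd0 : (0 : ℝ) < d := by exact_mod_cast hd
  have hl2 := Real.log_two_gt_d9
  refine ⟨?_, ?_, ?_⟩
  · rintro η ⟨S, hS, hη⟩ k
    refine ⟨{ toFun := fun f => f S, map_add' := fun _ _ => rfl, map_smul' := fun _ _ => rfl },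
      rfl, fun W _ f _ h => h S, fun W _ f _ => ?_, ?_⟩
    · change (S.card : ℝ) * f S = s * f S
      rw [hS]
    · change (boundary G S : ℝ) ≤ η * (d * s)
      unfold expansion at hη
      rw [hS, div_le_iff₀ (by positivity)] at hη
      exact hη
  · rintro η hη0 hη1 k hk ⟨L, h1, h2, h3, h4⟩
    have hη2 : η ≤ 1 / 3300 := hη1.trans (by norm_num)
    have hq : Real.log (1 / (1 / 2 : ℝ)) = Real.log 2 := by norm_num
    obtain ⟨S, hS, hS2⟩ := Run7.h881.SE.main G d hd hG s hs1 hs (33 * η) (1 / 2) (by linarith)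
      (by linarith) (by norm_num) le_rfl 20000000 le_rfl k (by
        refine le_trans ?_ hk
        refine mul_le_mul ?_ ?_ (by positivity) (by positivity)
        · exact mul_le_mul_of_nonneg_right (by norm_num) (sq_nonneg _)
        · refine Real.rpow_le_rpow_of_exponent_le hs1' ?_
          rw [hq, div_le_iff₀ (by linarith)]
          nlinarith) L ⟨h1, h2⟩ h3 (by
        refine h4.trans ?_
        refine mul_le_mul_of_nonneg_right (by linarith) (by positivity))
    refine ⟨S, hS, ?_⟩
    unfold expansion
    refine lt_of_le_of_lt hS2 ?_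
    nlinarith
  · rintro ε q hε hε1 hq hq1 k hk ⟨L, h1, h2, h3, h4⟩
    obtain ⟨S, hS, hS2⟩ := Run7.h881.SE.main G d hd hG s hs1 hs ε q hε
      (hε1.trans (by norm_num)) hq hq1 1000000000 (by norm_num) k hk L ⟨h1, h2⟩ h3 h4
    exact ⟨S, hS, hS2⟩

end Pool.Agent.Results.MP_8d8c46_lc.SheraliAdamsLevel
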