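import Pool.Agent.Run7.h881.SE.Gr
import Pool.Agent.Run7.h881.SE.Abs
import Pool.Agent.Run7.h881.SE.Num2

/-!
Small-set expansion and the Sherali-Adams linear programs alone: from a solution of the level
`200 (τ log (2 s) / ε)² s ^ τ` with sets of `s` vertices and expansion `ε` one gets a set of size
between `ε s` and `2 s` and expansion at most `√(300 ε / τ)`.
-/

set_option autoImplicit false

namespace Pool.Agent.Results.MP_8d8c46_lc.SheraliAdamsProfile

open Finset

/-- The number of edges of `G` with exactly one endpoint in `S`. -/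
def boundary {V : Type} [Fintype V] [DecidableEq V] (G : SimpleGraph V) [DecidableRel G.Adj]
    (S : Finset V) : ℕ :=
  (univ.filter fun e : V × V => e.1 ∈ S ∧ e.2 ∉ S ∧ G.Adj e.1 e.2).card

/-- The expansion of `S` in the `d`-regular graph `G`. -/
noncomputable def expansion {V : Type} [Fintype V] [DecidableEq V] (G : SimpleGraph V)
    [DecidableRel G.Adj] (d : ℕ) (S : Finset V) : ℝ := (boundary G S : ℝ) / (d * S.card)

/-- The function `f` of a set `S` of vertices depends only on `S ∩ W`. -/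
def DependsOn {V : Type} [DecidableEq V] (W : Finset V) (f : Finset V → ℝ) : Prop :=
  ∀ S S' : Finset V, S ∩ W = S' ∩ W → f S = f S'

/-- The level `k` Sherali-Adams linear program for a set `S` of `s` vertices whose expected
boundary is at most `η d s` has a solution: a linear functional `L` on the functions of a set with
`L 1 = 1`, nonnegative on the nonnegative functions which depend on at most `k` vertices, which
satisfies the constraint `|S| = s` multiplied by each function of fewer than `k` vertices. (Only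
the values of `L` on functions of at most `k` vertices matter: they are the local distributions
of the program. Nothing is required to be positive semidefinite.) -/
def Feasible {V : Type} [Fintype V] [DecidableEq V] (G : SimpleGraph V) [DecidableRel G.Adj]
    (d s k : ℕ) (η : ℝ) : Prop :=
  ∃ L : (Finset V → ℝ) →ₗ[ℝ] ℝ,
    L (fun _ => 1) = 1 ∧
    (∀ W : Finset V, W.card ≤ k → ∀ f : Finset V → ℝ, DependsOn W f → (∀ S, 0 ≤ f S) → 0 ≤ L f) ∧
    (∀ W : Finset V, W.card < k → ∀ f : Finset V → ℝ, DependsOn W f →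
      L (fun S => (S.card : ℝ) * f S) = s * L f) ∧
    L (fun S => (boundary G S : ℝ)) ≤ η * (d * s)

/-- For every `d`-regular graph `G`, `d ≥ 1`, every `s ≥ 1` and all `0 < τ ≤ 1`,
`0 < ε ≤ τ / 300`: if the program of a level `k ≥ 200 (τ log (2 s) / ε)² s ^ τ` is feasible for `ε`
then some set `S` with `ε s ≤ |S| ≤ 2 s` has expansion at most `√(300 ε / τ)`. -/
theorem result (V : Type) [Fintype V] [DecidableEq V] (G : SimpleGraph V) [DecidableRel G.Adj]
    (d : ℕ) (hd : 1 ≤ d) (hG : G.IsRegularOfDegree d) (s : ℕ) (hs : 1 ≤ s) (τ ε : ℝ) (hτ : 0 < τ)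
    (hτ1 : τ ≤ 1) (hε : 0 < ε) (hετ : ε ≤ τ / 300) (k : ℕ)
    (hk : 200 * (τ * Real.log (2 * s) / ε) ^ 2 * (s : ℝ) ^ τ ≤ k) (hF : Feasible G d s k ε) :
    ∃ S : Finset V, ε * s ≤ S.card ∧ (S.card : ℝ) ≤ 2 * s ∧
      expansion G d S ≤ Real.sqrt (300 * ε / τ) := by
  classical
  obtain ⟨L, h1, h2, h3, h4⟩ := hF
  have hs0 : (0 : ℝ) < s := by exact_mod_cast hs
  have hd0 : (0 : ℝ) < d := by exact_mod_cast hd
  set φ := Real.sqrt (300 * ε / τ) with hφ
  have hq0 : 0 < 300 * ε / τ := by positivity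
  have hφ0 : 0 < φ := Real.sqrt_pos.2 hq0
  have hφ2 : φ ^ 2 = 300 * ε / τ := Real.sq_sqrt hq0.le
  have hφ1 : φ ≤ 1 := by
    rw [hφ, Real.sqrt_le_one]
    rw [div_le_one hτ]; linarith
  have hφε : 17 * Real.sqrt ε ≤ φ := by
    rw [hφ]
    refine Real.le_sqrt_of_sq_le ?_
    rw [mul_pow, Real.sq_sqrt hε.le, le_div_iff₀ hτ]
    nlinarith
  obtain ⟨T, M, j, hT, hTs, hM, hMT, hj, hMj⟩ := Run7.h881.SE.choice2 s hs ε τ hτ hτ1 hε
    (by linarith) k hk φ hφ0 hφ2
  have he' : L (Run7.h881.SE.bd (Run7.h881.SE.wk G d)) ≤ ε * s := by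
    have h5 : Run7.h881.SE.bd (Run7.h881.SE.wk G d) =
        (1 / (d : ℝ)) • fun S : Finset V => (boundary G S : ℝ) := by
      funext S
      rw [Run7.h881.SE.bd_bdr, Pi.smul_apply, smul_eq_mul, one_div, mul_comm, ← div_eq_mul_inv]
      rfl
    rw [h5, map_smul, smul_eq_mul, one_div, inv_mul_le_iff₀ hd0]
    linarith
  have hSA : Run7.h881.SE.IsSheraliAdams k L := ⟨h1, h2⟩
  have hSZ : Run7.h881.SE.HasSize k s L := h3
  obtain ⟨S, hS1, hS2, hS3⟩ := Run7.h881.SE.dicho2 (Run7.h881.SE.wk G d)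
    (Run7.h881.SE.wk_nonneg G d) (Run7.h881.SE.wk_symm G d) (Run7.h881.SE.wk_row G d hd hG) s hs
    ε φ hε (by linarith) hφ0 hφ1 hφε T hT hTs M hM hMT j hj L (Run7.h881.SE.sa_mono hMj hSA)
    (Run7.h881.SE.size_mono hMj hSZ) he'
  refine ⟨S, hS1, hS2, ?_⟩
  have hSc : (0 : ℝ) < S.card := lt_of_lt_of_le (by positivity) hS1
  rw [Run7.h881.SE.ins_bdr G d hd hG] at hS3
  unfold expansion
  rw [div_le_iff₀ (by positivity)]
  have h6 : (Run7.h881.SE.bdr G S : ℝ) / d ≤ φ * S.card := by linarith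
  rw [div_le_iff₀ hd0] at h6
  calc (boundary G S : ℝ) ≤ φ * S.card * d := h6
    _ = φ * (d * S.card) := by ring

end Pool.Agent.Results.MP_8d8c46_lc.SheraliAdamsProfile
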