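import Pool.Agent.Run7.h881.SE.Den2
import Pool.Agent.Run7.h881.SE.Sdp2

/-!
Small-set expansion in the regime of small densities: from relaxations of inner density `κ` (the
expected part of the edges which stay inside of the set), where `κ` may be small, to sets of exactly
`s` vertices, with bounds which depend only on `κ` and `s`.

(1) Sherali-Adams linear programs alone: at level `700 log² (2 s) (4 / κ) ^ 7 s ^ τ`,
`τ = 2 log (4 / κ) / log (1 / q)`, the inner density is at least `κ ^ 3 q ^ 2 / 32768`, that is
`κ ^ O(1 / τ)`.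

(2) The basic semidefinite program: the inner density is at least
`exp (- O(√(log s * log (4 / κ)) + log (4 / κ)))`, which is `s ^ (- o(1))` for fixed `κ`.
-/

set_option autoImplicit false

namespace Pool.Agent.Results.MP_8d8c46_lc.SmallDensities

open Finset

/-- The number of edges of `G` with exactly one endpoint in `S`. -/
def boundary {V : Type} [Fintype V] [DecidableEq V] (G : SimpleGraph V) [DecidableRel G.Adj]
    (S : Finset V) : ℕ :=
  (univ.filter fun e : V × V => e.1 ∈ S ∧ e.2 ∉ S ∧ G.Adj e.1 e.2).card

/-- The expansion of `S` in the `d`-regular graph `G`. -/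
noncomputable def expansion {V : Type} [Fintype V] [DecidableEq V] (G : SimpleGraph V)
    [DecidableRel G.Adj] (d : ℕ) (S : Finset V) : ℝ := (boundary G S : ℝ) / (d * S.card)

/-- The function `f` of a set `S` of vertices depends only on `S ∩ W`. -/
def DependsOn {V : Type} [DecidableEq V] (W : Finset V) (f : Finset V → ℝ) : Prop :=
  ∀ S S' : Finset V, S ∩ W = S' ∩ W → f S = f S'

/-- The level `k` Sherali-Adams linear program for a set `S` of `s` vertices whose expected
boundary is at most `(1 - κ) d s` has a solution: a linear functional `L` on the functions of a set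
with `L 1 = 1`, nonnegative on the nonnegative functions which depend on at most `k` vertices, which
satisfies the constraint `|S| = s` multiplied by each function of fewer than `k` vertices. (Nothing
is required to be positive semidefinite.) -/
def LpFeasible {V : Type} [Fintype V] [DecidableEq V] (G : SimpleGraph V) [DecidableRel G.Adj]
    (d s k : ℕ) (κ : ℝ) : Prop :=
  ∃ L : (Finset V → ℝ) →ₗ[ℝ] ℝ,
    L (fun _ => 1) = 1 ∧
    (∀ W : Finset V, W.card ≤ k → ∀ f : Finset V → ℝ, DependsOn W f → (∀ S, 0 ≤ f S) → 0 ≤ L f) ∧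
    (∀ W : Finset V, W.card < k → ∀ f : Finset V → ℝ, DependsOn W f →
      L (fun S => (S.card : ℝ) * f S) = s * L f) ∧
    L (fun S => (boundary G S : ℝ)) ≤ (1 - κ) * (d * s)

/-- The basic semidefinite program for a set of `s` vertices, at least a part `κ` of whose edges
stay inside, has a solution: vectors `x u` (in a space of any finite dimension) whose products
`x u ⬝ᵥ x v` (the probabilities of `u, v ∈ S`) are nonnegative and at most `x u ⬝ᵥ x u ≤ 1`, with
the sum over `v` equal to `s` times `x u ⬝ᵥ x u`, and the sum of `x u ⬝ᵥ x u` equal to `s`. -/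
def SdpFeasible {V : Type} [Fintype V] [DecidableEq V] (G : SimpleGraph V) [DecidableRel G.Adj]
    (d s : ℕ) (κ : ℝ) : Prop :=
  ∃ (m : ℕ) (x : V → Fin m → ℝ),
    (∀ u v, 0 ≤ x u ⬝ᵥ x v) ∧ (∀ u v, x u ⬝ᵥ x v ≤ x u ⬝ᵥ x u) ∧ (∀ u, x u ⬝ᵥ x u ≤ 1) ∧
    (∀ u, ∑ v, x u ⬝ᵥ x v = s * (x u ⬝ᵥ x u)) ∧ (∑ u, x u ⬝ᵥ x u = s) ∧
    κ * (d * s) ≤ ∑ u, ∑ v with G.Adj u v, x u ⬝ᵥ x v

/-- Let `G` be a `d`-regular graph, `d ≥ 1`, let `2 ≤ s ≤ n` and `0 < κ ≤ 1`.
(0) If some set of `s` vertices has expansion at most `1 - κ` then both programs are feasible.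
(1) If `0 < q ≤ 1 / 2` and the linear program of a level
`k ≥ 700 log² (2 s) (4 / κ) ^ 7 s ^ (2 log (4 / κ) / log (1 / q))` is feasible then some set of
exactly `s` vertices has expansion at most `1 - κ ^ 3 q ^ 2 / 32768`.
(2) If the semidefinite program is feasible then some set of exactly `s` vertices has expansion at
most `1 - exp (- (3 √(log (16 s) * log (4 / κ)) + 14 log (4 / κ)))`. -/
theorem result (V : Type) [Fintype V] [DecidableEq V] (G : SimpleGraph V) [DecidableRel G.Adj]
    (d : ℕ) (hd : 1 ≤ d) (hG : G.IsRegularOfDegree d) (s : ℕ) (hs2 : 2 ≤ s)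
    (hs : s ≤ Fintype.card V) (κ : ℝ) (hκ : 0 < κ) (hκ1 : κ ≤ 1) :
    ((∃ S : Finset V, S.card = s ∧ expansion G d S ≤ 1 - κ) →
      (∀ k : ℕ, LpFeasible G d s k κ) ∧ SdpFeasible G d s κ) ∧
    (∀ q : ℝ, 0 < q → q ≤ 1 / 2 → ∀ k : ℕ,
      700 * Real.log (2 * s) ^ 2 * (4 / κ) ^ 7 *
        (s : ℝ) ^ (2 * Real.log (4 / κ) / Real.log (1 / q)) ≤ k →
      LpFeasible G d s k κ →
      ∃ S : Finset V, S.card = s ∧ expansion G d S ≤ 1 - κ ^ 3 * q ^ 2 / 32768) ∧
    (SdpFeasible G d s κ →
      ∃ S : Finset V, S.card = s ∧ expansion G d S ≤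
        1 - Real.exp (-(3 * √(Real.log (16 * s) * Real.log (4 / κ)) +
          14 * Real.log (4 / κ)))) := by
  classical
  have hd0 : (0 : ℝ) < d := by exact_mod_cast hd
  have hs0 : (0 : ℝ) < s := by
    have : 0 < s := by omega
    exact_mod_cast this
  refine ⟨?_, ?_, ?_⟩
  · rintro ⟨S, hS, hη⟩
    have hb : (boundary G S : ℝ) ≤ (1 - κ) * (d * s) := by
      unfold expansion at hη
      rw [hS, div_le_iff₀ (by positivity)] at hη
      exact hη
    refine ⟨fun k => ?_, ?_⟩
    · refine ⟨{ toFun := fun f => f S, map_add' := fun _ _ => rfl, map_smul' := fun _ _ => rfl },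
        rfl, fun W _ f _ h => h S, fun W _ f _ => ?_, hb⟩
      change (S.card : ℝ) * f S = s * f S
      rw [hS]
    · refine ⟨1, fun u _ => if u ∈ S then 1 else 0, ?_, ?_, ?_, ?_, ?_, ?_⟩
      · intro u v
        simp only [dotProduct, Finset.univ_unique, Finset.sum_singleton]
        split_ifs <;> norm_num
      · intro u v
        simp only [dotProduct, Finset.univ_unique, Finset.sum_singleton]
        split_ifs <;> norm_num
      · intro u
        simp only [dotProduct, Finset.univ_unique, Finset.sum_singleton]
        split_ifs <;> norm_num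
      · intro u
        simp only [dotProduct, Finset.univ_unique, Finset.sum_singleton]
        split_ifs
        · simp [hS]
        · simp
      · simp only [dotProduct, Finset.univ_unique, Finset.sum_singleton]
        simp [hS]
      · have h1 := Run7.h881.SE.ins_bdr G d hd hG S
        have h2 : (boundary G S : ℝ) = (Run7.h881.SE.bdr G S : ℝ) := rfl
        rw [h2] at hb
        rw [hS] at h1
        have h3 : ∑ u, ∑ v with G.Adj u v,
            ((fun _ : Fin 1 => if u ∈ S then (1 : ℝ) else 0) ⬝ᵥ
              (fun _ : Fin 1 => if v ∈ S then (1 : ℝ) else 0)) =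
            d * Run7.h881.SE.ins (Run7.h881.SE.wk G d) S := by
          unfold Run7.h881.SE.ins
          rw [mul_sum, ← sum_subset (subset_univ S)]
          · refine sum_congr rfl fun u hu => ?_
            rw [mul_sum, sum_filter, ← sum_subset (subset_univ S)]
            · refine sum_congr rfl fun v hv => ?_
              simp only [dotProduct, Finset.univ_unique, Finset.sum_singleton]
              unfold Run7.h881.SE.wk
              rw [if_pos hu, if_pos hv]
              split_ifs
              · field_simp
              · simp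
            · intro v _ hv
              simp only [dotProduct, Finset.univ_unique, Finset.sum_singleton]
              rw [if_neg hv]
              simp
          · intro u _ hu
            refine sum_eq_zero fun v _ => ?_
            simp only [dotProduct, Finset.univ_unique, Finset.sum_singleton]
            rw [if_neg hu]
            simp
        rw [h3, h1]
        have h4 : (d : ℝ) * (s - (Run7.h881.SE.bdr G S : ℝ) / d) =
            d * s - Run7.h881.SE.bdr G S := by
          field_simp
        rw [h4]
        linarith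
  · rintro q hq hq1 k hk ⟨L, h1, h2, h3, h4⟩
    obtain ⟨S, hS, hS2⟩ := Run7.h881.SE.main3 G d hd hG s hs2 hs κ q hκ hκ1 hq hq1 k hk L
      ⟨h1, h2⟩ h3 h4
    exact ⟨S, hS, hS2⟩
  · rintro ⟨m, x, h0, h1, h2, h3, h4, h5⟩
    obtain ⟨S, hS, hS2⟩ := Run7.h881.SE.mainSdp G d hd hG s hs2 hs κ hκ hκ1 x h0 h1 h2
      (fun u => (h3 u).le) h4.le h5
    exact ⟨S, hS, hS2⟩

end Pool.Agent.Results.MP_8d8c46_lc.SmallDensities
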